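import Mathlib

/-!
# Balanced polyhedral complexes and stable intersections

The definitions used in the statement of
`Pool.Agent.Results.MP_7d0545_co.IrreducibleCounterexample.result`.
-/

set_option autoImplicit false

namespace Pool.Agent.Lib.MP_7d0545_co

open scoped Pointwise

/-- A polyhedron in `ℝ^n`: the solution set of finitely many weak linear inequalities. -/
def IsPolyhedron {n : ℕ} (P : Set (Fin n → ℝ)) : Prop :=
  ∃ (k : ℕ) (A : Fin k → Fin n → ℝ) (b : Fin k → ℝ), P = {x | ∀ i, A i ⬝ᵥ x ≤ b i}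

/-- `F` is a non-empty face of `P`: the non-empty set of all points of `P` at which some linear
functional attains its maximum over `P` (the functional `0` gives `P` itself). -/
def IsFace {n : ℕ} (F P : Set (Fin n → ℝ)) : Prop :=
  F.Nonempty ∧ ∃ c : Fin n → ℝ, F = {x | x ∈ P ∧ ∀ y ∈ P, c ⬝ᵥ y ≤ c ⬝ᵥ x}

/-- The dimension of a set: the dimension of (the direction space of) its affine span. -/
noncomputable def dim {n : ℕ} (P : Set (Fin n → ℝ)) : ℕ :=
  Module.finrank ℝ (vectorSpan ℝ P)

/-- An integer vector, seen in `ℝ^n`. -/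
def toReal {n : ℕ} (v : Fin n → ℤ) : Fin n → ℝ := fun j => (v j : ℝ)

/-- A rational subspace: one spanned by integer vectors. -/
def IsRational {n : ℕ} (V : Submodule ℝ (Fin n → ℝ)) : Prop :=
  ∃ S : Set (Fin n → ℤ), V = Submodule.span ℝ (toReal '' S)

/-- `v` is a primitive integer normal vector of `τ` pointing into `σ`: it is an integer vector
parallel to `σ`, it generates the integer vectors parallel to `σ` modulo those parallel to `τ`, and
it points from `τ` into `σ`. -/
def IsPrimitiveNormal {n : ℕ} (τ σ : Set (Fin n → ℝ)) (v : Fin n → ℤ) : Prop :=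
  toReal v ∈ vectorSpan ℝ σ ∧
  (∀ w : Fin n → ℤ, toReal w ∈ vectorSpan ℝ σ →
    ∃ k : ℤ, toReal (w - k • v) ∈ vectorSpan ℝ τ) ∧
  ∃ x ∈ τ, ∃ ε : ℝ, 0 < ε ∧ x + ε • toReal v ∈ σ

open Classical in
/-- The balancing condition, at every `(d-1)`-dimensional cell `τ`, for real weights `w` on the
`d`-dimensional cells. -/
def IsBalanced {n : ℕ} (cells : Finset (Set (Fin n → ℝ))) (d : ℕ)
    (w : Set (Fin n → ℝ) → ℝ) : Prop :=
  ∀ τ ∈ cells, dim τ + 1 = d →
    ∃ v : Set (Fin n → ℝ) → (Fin n → ℤ),
      (∀ σ ∈ cells, dim σ = d → τ ⊆ σ → IsPrimitiveNormal τ σ (v σ)) ∧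
      ∑ σ ∈ cells.filter (fun σ => dim σ = d ∧ τ ⊆ σ), w σ • toReal (v σ) ∈ vectorSpan ℝ τ

/-- A balanced polyhedral complex in `ℝ^n`, pure of dimension `d`. -/
structure BalancedComplex (n d : ℕ) where
  /-- the (finitely many) cells -/
  cells : Finset (Set (Fin n → ℝ))
  nonempty : ∀ σ ∈ cells, σ.Nonempty
  polyhedron : ∀ σ ∈ cells, IsPolyhedron σ
  rational : ∀ σ ∈ cells, IsRational (vectorSpan ℝ σ)
  face_mem : ∀ σ ∈ cells, ∀ F, IsFace F σ → F ∈ cells
  inter_face : ∀ σ ∈ cells, ∀ τ ∈ cells, (σ ∩ τ).Nonempty → IsFace (σ ∩ τ) σ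
  pure : ∀ σ ∈ cells, ∃ ρ ∈ cells, σ ⊆ ρ ∧ dim ρ = d
  /-- the weights (only the values at the `d`-dimensional cells matter) -/
  weight : Set (Fin n → ℝ) → ℕ
  weight_pos : ∀ σ ∈ cells, dim σ = d → 0 < weight σ
  balanced : IsBalanced cells d (fun σ => (weight σ : ℝ))

namespace BalancedComplex

variable {n d e : ℕ}

/-- The support of a complex: the union of its cells. -/
def support (S : BalancedComplex n d) : Set (Fin n → ℝ) := {x | ∃ σ ∈ S.cells, x ∈ σ}

/-- A balanced complex is irreducible if the balanced (real) weights on its `d`-dimensional cells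
are just the scalar multiples of its own weights. -/
def Irreducible (S : BalancedComplex n d) : Prop :=
  ∀ w : Set (Fin n → ℝ) → ℝ, IsBalanced S.cells d w →
    ∃ c : ℝ, ∀ σ ∈ S.cells, dim σ = d → w σ = c * (S.weight σ : ℝ)

/-- The support of the stable intersection of two balanced complexes: the union of the
intersections `σ ∩ τ` of a cell `σ` of the first and a cell `τ` of the second whose Minkowski sum
is `n`-dimensional. -/
def stableInter (S : BalancedComplex n d) (T : BalancedComplex n e) : Set (Fin n → ℝ) :=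
  {x | ∃ σ ∈ S.cells, ∃ τ ∈ T.cells, dim (σ + τ) = n ∧ x ∈ σ ∩ τ}

end BalancedComplex

end Pool.Agent.Lib.MP_7d0545_co
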