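import Pool.Agent.Lib.MP_7d0545_co.Defs

/-!
# A two-dimensional irreducible balanced fan in `ℝ^4` and a plane

The fan has the eight rays
`u = (1,0,0,0)`, `q = (-1,-1,0,0)`, `p = (0,1,0,0)`, `m = (0,-1,-1,0)`,
`a = (0,0,1,0)`, `b = (0,0,-1,0)`, `s = (0,0,0,1)`, `t = (0,1,1,-1)`
and the eleven two-dimensional cones `ua, ub, qa, qb, pb, ps, as, ms, pt, at, mt`.
The plane is `x₀ + x₃ = 1`, `x₁ + x₃ = 0`.
-/

set_option autoImplicit false

namespace Pool.Agent.Lib.MP_7d0545_co

open scoped Pointwise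

/-! ### Linear algebra of simplicial cones with dual functionals -/

section Fan

variable {n r : ℕ} (G : Fin r → Fin n → ℤ)

/-- the linear combination of the vectors `G i` with coefficients `a i` -/
noncomputable def comb (a : Fin r → ℝ) : Fin n → ℝ := ∑ i, a i • toReal (G i)

/-- the cone generated by the vectors `G i`, `i ∈ T` -/
def cone (T : Finset (Fin r)) : Set (Fin n → ℝ) :=
  {x | ∃ a : Fin r → ℝ, (∀ i, 0 ≤ a i) ∧ (∀ i, i ∉ T → a i = 0) ∧ comb G a = x}

/-- `D` is a system of integer functionals dual to the vectors `G i`, `i ∈ T`. -/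
def IsDual (T : Finset (Fin r)) (D : Fin r → Fin n → ℤ) : Prop :=
  ∀ i ∈ T, ∀ j ∈ T, D i ⬝ᵥ G j = if i = j then 1 else 0

variable {G}

theorem toReal_dot (v w : Fin n → ℤ) : toReal v ⬝ᵥ toReal w = ((v ⬝ᵥ w : ℤ) : ℝ) := by
  simp [toReal, dotProduct]

theorem dot_comb (c : Fin n → ℝ) (a : Fin r → ℝ) :
    c ⬝ᵥ comb G a = ∑ j, a j * (c ⬝ᵥ toReal (G j)) := by
  simp only [comb, dotProduct_sum, dotProduct_smul, smul_eq_mul]

theorem dual_comb {T : Finset (Fin r)} {D : Fin r → Fin n → ℤ} (hD : IsDual G T D)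
    {a : Fin r → ℝ} (ha : ∀ i, i ∉ T → a i = 0) {i : Fin r} (hi : i ∈ T) :
    toReal (D i) ⬝ᵥ comb G a = a i := by
  rw [dot_comb, Finset.sum_eq_single i]
  · rw [toReal_dot, hD i hi i hi]; simp
  · intro j _ hj
    by_cases hjT : j ∈ T
    · rw [toReal_dot, hD i hi j hjT, if_neg (Ne.symm hj)]; simp
    · rw [ha j hjT, zero_mul]
  · intro h; exact absurd (Finset.mem_univ i) h

theorem IsDual.mono {T T' : Finset (Fin r)} {D : Fin r → Fin n → ℤ} (hD : IsDual G T D)
    (h : T' ⊆ T) : IsDual G T' D := fun i hi j hj => hD i (h hi) j (h hj)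

theorem zero_mem_cone (T : Finset (Fin r)) : (0 : Fin n → ℝ) ∈ cone G T :=
  ⟨0, fun _ => le_rfl, fun _ _ => rfl, by simp [comb]⟩

theorem gen_mem_cone {T : Finset (Fin r)} {i : Fin r} (hi : i ∈ T) : toReal (G i) ∈ cone G T := by
  classical
  refine ⟨Pi.single i 1, fun j => ?_, fun j hj => ?_, ?_⟩
  · by_cases h : j = i
    · subst h; simp
    · simp [h]
  · have : j ≠ i := fun h => hj (h ▸ hi)
    simp [this]
  · unfold comb
    rw [Finset.sum_eq_single i]
    · simp
    · intro j _ hj; simp [hj]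
    · intro h; exact absurd (Finset.mem_univ i) h

theorem cone_mono {T T' : Finset (Fin r)} (h : T' ⊆ T) : cone G T' ⊆ cone G T := by
  rintro x ⟨a, ha, haT, rfl⟩
  exact ⟨a, ha, fun i hi => haT i (fun h' => hi (h h')), rfl⟩

theorem vectorSpan_cone (T : Finset (Fin r)) :
    vectorSpan ℝ (cone G T) = Submodule.span ℝ (toReal '' (G '' (T : Set (Fin r)))) := by
  rw [vectorSpan_eq_span_vsub_set_right ℝ (zero_mem_cone (G := G) T)]
  apply le_antisymm
  · rw [Submodule.span_le]
    rintro _ ⟨x, ⟨a, ha, haT, rfl⟩, rfl⟩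
    simp only [vsub_eq_sub, sub_zero, SetLike.mem_coe]
    unfold comb
    refine Submodule.sum_mem _ (fun i _ => ?_)
    by_cases hi : i ∈ T
    · exact Submodule.smul_mem _ _ (Submodule.subset_span ⟨G i, ⟨i, hi, rfl⟩, rfl⟩)
    · rw [haT i hi, zero_smul]; exact Submodule.zero_mem _
  · rw [Submodule.span_le]
    rintro _ ⟨_, ⟨i, hi, rfl⟩, rfl⟩
    exact Submodule.subset_span ⟨toReal (G i), gen_mem_cone hi, by simp⟩

theorem mem_vectorSpan_cone {T : Finset (Fin r)} {x : Fin n → ℝ} :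
    x ∈ vectorSpan ℝ (cone G T) ↔ ∃ a : Fin r → ℝ, (∀ i, i ∉ T → a i = 0) ∧ comb G a = x := by
  classical
  rw [vectorSpan_cone]
  constructor
  · intro hx
    induction hx using Submodule.span_induction with
    | mem x hx =>
      obtain ⟨_, ⟨i, hi, rfl⟩, rfl⟩ := hx
      obtain ⟨a, _, h2, h3⟩ := gen_mem_cone (G := G) (Finset.mem_coe.mp hi)
      exact ⟨a, h2, h3⟩
    | zero => exact ⟨0, fun _ _ => rfl, by simp [comb]⟩
    | add x y _ _ hx hy =>
      obtain ⟨a, ha, rfl⟩ := hx
      obtain ⟨b, hb, rfl⟩ := hy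
      refine ⟨a + b, fun i hi => by simp [ha i hi, hb i hi], ?_⟩
      simp [comb, add_smul, Finset.sum_add_distrib]
    | smul c x _ hx =>
      obtain ⟨a, ha, rfl⟩ := hx
      refine ⟨c • a, fun i hi => by simp [ha i hi], ?_⟩
      simp [comb, mul_smul, Finset.smul_sum]
  · rintro ⟨a, haT, rfl⟩
    unfold comb
    refine Submodule.sum_mem _ (fun i _ => ?_)
    by_cases hi : i ∈ T
    · exact Submodule.smul_mem _ _ (Submodule.subset_span ⟨G i, ⟨i, hi, rfl⟩, rfl⟩)
    · rw [haT i hi, zero_smul]; exact Submodule.zero_mem _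

theorem dim_cone {T : Finset (Fin r)} {D : Fin r → Fin n → ℤ} (hD : IsDual G T D) :
    dim (cone G T) = T.card := by
  classical
  have hli : LinearIndependent ℝ (fun i : T => toReal (G i)) := by
    rw [Fintype.linearIndependent_iff]
    intro g hg i
    let a : Fin r → ℝ := fun j => if h : j ∈ T then g ⟨j, h⟩ else 0
    have haT : ∀ j, j ∉ T → a j = 0 := fun j hj => by simp [a, hj]
    have hcomb : comb G a = 0 := by
      rw [← hg]
      unfold comb
      rw [← Finset.sum_subset (Finset.subset_univ T) (fun j _ hj => by rw [haT j hj, zero_smul])]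
      rw [← Finset.sum_coe_sort T]
      refine Finset.sum_congr rfl (fun j _ => ?_)
      simp [a]
    have := dual_comb hD haT i.2
    rw [hcomb] at this
    simp [a] at this
    exact this.symm
  have h1 : vectorSpan ℝ (cone G T) = Submodule.span ℝ (Set.range (fun i : T => toReal (G i))) := by
    rw [vectorSpan_cone]
    congr 1
    ext x
    simp only [Set.mem_image, Set.mem_range, Finset.mem_coe]
    constructor
    · rintro ⟨_, ⟨i, hi, rfl⟩, rfl⟩; exact ⟨⟨i, hi⟩, rfl⟩
    · rintro ⟨⟨i, hi⟩, rfl⟩; exact ⟨G i, ⟨i, hi, rfl⟩, rfl⟩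
  unfold dim
  rw [h1, finrank_span_eq_card hli, Fintype.card_coe]

theorem isRational_cone (T : Finset (Fin r)) : IsRational (vectorSpan ℝ (cone G T)) :=
  ⟨G '' (T : Set (Fin r)), vectorSpan_cone T⟩

/-- the faces of a simplicial cone -/
theorem exists_of_isFace {T : Finset (Fin r)} {F : Set (Fin n → ℝ)} (hF : IsFace F (cone G T)) :
    ∃ T' ⊆ T, F = cone G T' := by
  classical
  obtain ⟨⟨x₀, hx₀⟩, c, rfl⟩ := hF
  obtain ⟨hx₀T, hx₀max⟩ := hx₀
  -- the functional is nonpositive on the cone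
  have hcone_smul : ∀ y ∈ cone G T, ∀ t : ℝ, 0 ≤ t → t • y ∈ cone G T := by
    rintro _ ⟨a, ha, haT, rfl⟩ t ht
    refine ⟨t • a, fun i => mul_nonneg ht (ha i), fun i hi => by simp [haT i hi], ?_⟩
    simp [comb, mul_smul, Finset.smul_sum]
  have hnonpos : ∀ y ∈ cone G T, c ⬝ᵥ y ≤ 0 := by
    intro y hy
    by_contra hpos
    push Not at hpos
    have h0 : 0 ≤ c ⬝ᵥ x₀ := by
      have := hx₀max 0 (zero_mem_cone T)
      simpa using this
    have h1 := hx₀max _ (hcone_smul y hy ((c ⬝ᵥ x₀ + 1) / (c ⬝ᵥ y)) (by positivity))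
    rw [dotProduct_smul, smul_eq_mul, div_mul_cancel₀ _ hpos.ne'] at h1
    linarith
  have hmax0 : ∀ x, (x ∈ cone G T ∧ ∀ y ∈ cone G T, c ⬝ᵥ y ≤ c ⬝ᵥ x) ↔
      (x ∈ cone G T ∧ c ⬝ᵥ x = 0) := by
    intro x
    constructor
    · rintro ⟨h1, h2⟩
      refine ⟨h1, le_antisymm (hnonpos x h1) ?_⟩
      have := h2 0 (zero_mem_cone T)
      simpa using this
    · rintro ⟨h1, h2⟩
      exact ⟨h1, fun y hy => by rw [h2]; exact hnonpos y hy⟩
  refine ⟨T.filter (fun i => c ⬝ᵥ toReal (G i) = 0), Finset.filter_subset _ _, ?_⟩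
  ext x
  rw [Set.mem_ofPred_eq, hmax0]
  constructor
  · rintro ⟨⟨a, ha, haT, rfl⟩, hc⟩
    refine ⟨a, ha, ?_, rfl⟩
    rw [dot_comb] at hc
    have hterm : ∀ j ∈ (Finset.univ : Finset (Fin r)), a j * (c ⬝ᵥ toReal (G j)) ≤ 0 := by
      intro j _
      by_cases hj : j ∈ T
      · exact mul_nonpos_of_nonneg_of_nonpos (ha j) (hnonpos _ (gen_mem_cone hj))
      · rw [haT j hj, zero_mul]
    have hall := (Finset.sum_eq_zero_iff_of_nonpos hterm).mp hc
    intro i hi
    by_cases hiT : i ∈ T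
    · have hne : c ⬝ᵥ toReal (G i) ≠ 0 := fun h => hi (Finset.mem_filter.mpr ⟨hiT, h⟩)
      have := hall i (Finset.mem_univ i)
      rcases mul_eq_zero.mp this with h | h
      · exact h
      · exact absurd h hne
    · exact haT i hiT
  · rintro ⟨a, ha, haT, rfl⟩
    refine ⟨⟨a, ha, fun i hi => haT i (fun h => hi (Finset.mem_filter.mp h).1), rfl⟩, ?_⟩
    rw [dot_comb]
    refine Finset.sum_eq_zero (fun j _ => ?_)
    by_cases hj : j ∈ T.filter (fun i => c ⬝ᵥ toReal (G i) = 0)
    · rw [(Finset.mem_filter.mp hj).2, mul_zero]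
    · rw [haT j hj, zero_mul]

theorem isFace_cone {T T' : Finset (Fin r)} {D : Fin r → Fin n → ℤ} (hD : IsDual G T D)
    (h : T' ⊆ T) : IsFace (cone G T') (cone G T) := by
  classical
  refine ⟨⟨0, zero_mem_cone T'⟩, - ∑ i ∈ T \ T', toReal (D i), ?_⟩
  have hval : ∀ a : Fin r → ℝ, (∀ i, i ∉ T → a i = 0) →
      (- ∑ i ∈ T \ T', toReal (D i)) ⬝ᵥ comb G a = - ∑ i ∈ T \ T', a i := by
    intro a ha
    rw [neg_dotProduct, sum_dotProduct]
    congr 1
    exact Finset.sum_congr rfl (fun i hi => dual_comb hD ha (Finset.mem_sdiff.mp hi).1)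
  ext x
  constructor
  · rintro ⟨a, ha, haT, rfl⟩
    have haT2 : ∀ i, i ∉ T → a i = 0 := fun i hi => haT i (fun h' => hi (h h'))
    refine ⟨⟨a, ha, haT2, rfl⟩, ?_⟩
    rintro _ ⟨b, hb, hbT, rfl⟩
    rw [hval a haT2, hval b hbT]
    have h1 : ∑ i ∈ T \ T', a i = 0 :=
      Finset.sum_eq_zero (fun i hi => haT i (Finset.mem_sdiff.mp hi).2)
    have h2 : 0 ≤ ∑ i ∈ T \ T', b i := Finset.sum_nonneg (fun i _ => hb i)
    rw [h1]; linarith
  · rintro ⟨⟨a, ha, haT, rfl⟩, hmax⟩
    have h0 := hmax 0 (zero_mem_cone T)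
    rw [dotProduct_zero, hval a haT] at h0
    have h2 : 0 ≤ ∑ i ∈ T \ T', a i := Finset.sum_nonneg (fun i _ => ha i)
    have h3 : ∑ i ∈ T \ T', a i = 0 := by linarith
    rw [Finset.sum_eq_zero_iff_of_nonneg (fun i _ => ha i)] at h3
    refine ⟨a, ha, fun i hi => ?_, rfl⟩
    by_cases hiT : i ∈ T
    · exact h3 i (Finset.mem_sdiff.mpr ⟨hiT, hi⟩)
    · exact haT i hiT

theorem isPolyhedron_cone {T : Finset (Fin r)} {D : Fin r → Fin n → ℤ} (hD : IsDual G T D) :
    IsPolyhedron (cone G T) := by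
  classical
  -- the projection onto the span: x ↦ comb (D i · x)_{i ∈ T}
  let P : (Fin n → ℝ) → (Fin n → ℝ) :=
    fun x => comb G (fun i => if i ∈ T then toReal (D i) ⬝ᵥ x else 0)
  have hP : ∀ x, x ∈ cone G T ↔ (∀ i ∈ T, 0 ≤ toReal (D i) ⬝ᵥ x) ∧ P x = x := by
    intro x
    constructor
    · rintro ⟨a, ha, haT, rfl⟩
      refine ⟨fun i hi => by rw [dual_comb hD haT hi]; exact ha i, ?_⟩
      simp only [P]
      congr 1
      ext i
      by_cases hi : i ∈ T
      · rw [if_pos hi, dual_comb hD haT hi]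
      · rw [if_neg hi, haT i hi]
    · rintro ⟨h1, h2⟩
      refine ⟨fun i => if i ∈ T then toReal (D i) ⬝ᵥ x else 0, fun i => ?_, fun i hi => ?_, h2⟩
      · by_cases hi : i ∈ T
        · simp only [if_pos hi]; exact h1 i hi
        · simp [hi]
      · simp [hi]
  -- P x j is a linear functional of x
  have hPlin : ∀ x j, P x j =
      (∑ i, if i ∈ T then (G i j : ℝ) • toReal (D i) else 0) ⬝ᵥ x := by
    intro x j
    simp only [P, comb, Finset.sum_apply, Pi.smul_apply, smul_eq_mul, sum_dotProduct]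
    refine Finset.sum_congr rfl (fun i _ => ?_)
    by_cases hi : i ∈ T
    · simp only [if_pos hi, smul_dotProduct, smul_eq_mul, toReal]; ring
    · simp only [if_neg hi, zero_mul, zero_dotProduct]
  -- inequality system indexed by `Fin r ⊕ Fin n ⊕ Fin n`
  let A : (Fin r ⊕ Fin n) ⊕ Fin n → Fin n → ℝ := fun k =>
    match k with
    | Sum.inl (Sum.inl i) => if i ∈ T then - toReal (D i) else 0
    | Sum.inl (Sum.inr j) => (∑ i, if i ∈ T then (G i j : ℝ) • toReal (D i) else 0) - Pi.single j 1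
    | Sum.inr j => Pi.single j 1 - (∑ i, if i ∈ T then (G i j : ℝ) • toReal (D i) else 0)
  let e := Fintype.equivFin ((Fin r ⊕ Fin n) ⊕ Fin n)
  refine ⟨Fintype.card ((Fin r ⊕ Fin n) ⊕ Fin n), fun k => A (e.symm k), fun _ => 0, ?_⟩
  ext x
  rw [hP, Set.mem_ofPred_eq]
  have hall : (∀ i, A (e.symm i) ⬝ᵥ x ≤ 0) ↔ ∀ k, A k ⬝ᵥ x ≤ 0 :=
    ⟨fun h k => by simpa using h (e k), fun h i => h _⟩
  rw [hall]
  constructor
  · rintro ⟨h1, h2⟩ k
    rcases k with (i | j) | j
    · simp only [A]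
      by_cases hi : i ∈ T
      · rw [if_pos hi, neg_dotProduct]; have := h1 i hi; linarith
      · rw [if_neg hi, zero_dotProduct]
    · simp only [A]
      rw [sub_dotProduct, ← hPlin, h2]; simp
    · simp only [A]
      rw [sub_dotProduct, ← hPlin, h2]; simp
  · intro h
    refine ⟨fun i hi => ?_, ?_⟩
    · have := h (Sum.inl (Sum.inl i))
      simp only [A] at this
      rw [if_pos hi, neg_dotProduct] at this
      linarith
    · ext j
      have h1 := h (Sum.inl (Sum.inr j))
      have h2 := h (Sum.inr j)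
      simp only [A] at h1 h2
      rw [sub_dotProduct, ← hPlin] at h1 h2
      simp at h1 h2
      linarith


theorem isPrimitiveNormal_gen {T : Finset (Fin r)} {j : Fin r} (hj : j ∉ T)
    {D : Fin r → Fin n → ℤ} (hD : IsDual G (insert j T) D) :
    IsPrimitiveNormal (cone G T) (cone G (insert j T)) (G j) := by
  classical
  refine ⟨?_, ?_, ?_⟩
  · rw [vectorSpan_cone]
    exact Submodule.subset_span ⟨G j, ⟨j, by simp, rfl⟩, rfl⟩
  · intro w hw
    obtain ⟨a, ha, hwa⟩ := mem_vectorSpan_cone.mp hw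
    refine ⟨D j ⬝ᵥ w, ?_⟩
    have hjw : (((D j ⬝ᵥ w : ℤ)) : ℝ) = a j := by
      rw [← toReal_dot, ← hwa, dual_comb hD ha (Finset.mem_insert_self j T)]
    rw [mem_vectorSpan_cone]
    refine ⟨a - Pi.single j (a j), ?_, ?_⟩
    · intro i hi
      by_cases hij : i = j
      · subst hij; simp
      · have : i ∉ insert j T := by simp [hij, hi]
        simp [ha i this, hij]
    · have h1 : toReal (w - (D j ⬝ᵥ w) • G j) = toReal w - (a j) • toReal (G j) := by
        ext k
        simp only [toReal, Pi.sub_apply, Pi.smul_apply, smul_eq_mul, Int.cast_sub, Int.cast_mul, hjw]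
      rw [h1, ← hwa]
      simp only [comb, Pi.sub_apply, sub_smul, Finset.sum_sub_distrib]
      congr 1
      rw [Finset.sum_eq_single j]
      · simp
      · intro i _ hi; simp [hi]
      · intro h; exact absurd (Finset.mem_univ j) h
  · exact ⟨0, zero_mem_cone T, 1, one_pos, by
      rw [zero_add, one_smul]; exact gen_mem_cone (Finset.mem_insert_self j T)⟩

theorem primitiveNormal_sub_mem {T : Finset (Fin r)} {j : Fin r} (hj : j ∉ T)
    {D : Fin r → Fin n → ℤ} (hD : IsDual G (insert j T) D) {v : Fin n → ℤ}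
    (hv : IsPrimitiveNormal (cone G T) (cone G (insert j T)) v) :
    toReal v - toReal (G j) ∈ vectorSpan ℝ (cone G T) := by
  classical
  obtain ⟨h1, h2, x, hx, ε, hε, h3⟩ := hv
  have hjj : j ∈ insert j T := Finset.mem_insert_self j T
  have hzero : ∀ y ∈ vectorSpan ℝ (cone G T), toReal (D j) ⬝ᵥ y = 0 := by
    intro y hy
    obtain ⟨a, ha, rfl⟩ := mem_vectorSpan_cone.mp hy
    rw [dual_comb hD (fun i hi => ha i (fun h => hi (Finset.mem_insert_of_mem h))) hjj]
    exact ha j hj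
  obtain ⟨k, hk⟩ := h2 (G j) (by
    rw [vectorSpan_cone]; exact Submodule.subset_span ⟨G j, ⟨j, by simp, rfl⟩, rfl⟩)
  have hk' := hzero _ hk
  rw [toReal_dot] at hk'
  have hk2 : D j ⬝ᵥ (G j - k • v) = 0 := by exact_mod_cast hk'
  rw [dotProduct_sub, dotProduct_smul, hD j hjj j hjj, if_pos rfl, smul_eq_mul] at hk2
  have hnn : 0 ≤ toReal (D j) ⬝ᵥ toReal v := by
    obtain ⟨b, hb, hbT, hbx⟩ := h3
    have e1 : toReal (D j) ⬝ᵥ (x + ε • toReal v) = b j := by
      rw [← hbx]; exact dual_comb hD hbT hjj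
    rw [dotProduct_add, dotProduct_smul, smul_eq_mul] at e1
    have e2 : toReal (D j) ⬝ᵥ x = 0 := by
      obtain ⟨a, ha, haT, rfl⟩ := hx
      rw [dual_comb hD (fun i hi => haT i (fun h => hi (Finset.mem_insert_of_mem h))) hjj]
      exact haT j hj
    rw [e2, zero_add] at e1
    have e3 := hb j
    rw [← e1] at e3
    exact nonneg_of_mul_nonneg_right e3 hε
  rw [toReal_dot] at hnn
  have hnn' : 0 ≤ D j ⬝ᵥ v := by exact_mod_cast hnn
  have hone : D j ⬝ᵥ v = 1 := by
    have hmul : k * (D j ⬝ᵥ v) = 1 := by linarith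
    rcases Int.eq_one_or_neg_one_of_mul_eq_one (mul_comm k _ ▸ hmul) with h | h
    · exact h
    · omega
  obtain ⟨a, ha, hav⟩ := mem_vectorSpan_cone.mp h1
  have haj : a j = 1 := by
    rw [← dual_comb hD ha hjj, hav, toReal_dot, hone]; simp
  rw [mem_vectorSpan_cone]
  refine ⟨a - Pi.single j 1, ?_, ?_⟩
  · intro i hi
    by_cases hij : i = j
    · subst hij; simp [haj]
    · have : i ∉ insert j T := by simp [hij, hi]
      simp [ha i this, hij]
  · rw [← hav]
    simp only [comb, Pi.sub_apply, sub_smul, Finset.sum_sub_distrib]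
    congr 1
    rw [Finset.sum_eq_single j]
    · simp
    · intro i _ hi; simp [hi]
    · intro h; exact absurd (Finset.mem_univ j) h


/-- The indices `j` for which `T ∪ {j}` is a larger member of `F`. -/
def nbr (F : Finset (Finset (Fin r))) (T : Finset (Fin r)) : Finset (Fin r) :=
  Finset.univ.filter (fun j => j ∉ T ∧ insert j T ∈ F)

variable (G) in
/-- Combinatorial data `F` of a unimodular simplicial fan, pure of dimension `d`, spanned by the
integer vectors `G i`, which is balanced with all weights equal to one. -/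
structure FanData (F : Finset (Finset (Fin r))) (d : ℕ) : Prop where
  down : ∀ T ∈ F, ∀ T' ⊆ T, T' ∈ F
  dual : ∀ T ∈ F, ∃ D, IsDual G T D
  pure : ∀ T ∈ F, ∃ T' ∈ F, T ⊆ T' ∧ T'.card = d
  uniq : ∀ T ∈ F, ∀ T' ∈ F, ∀ a b : Fin r → ℝ, (∀ i, 0 ≤ a i) → (∀ i, 0 ≤ b i) →
    (∀ i, i ∉ T → a i = 0) → (∀ i, i ∉ T' → b i = 0) → comb G a = comb G b → a = b
  bal : ∀ T ∈ F, T.card + 1 = d → ∑ j ∈ nbr F T, toReal (G j) ∈ vectorSpan ℝ (cone G T)

namespace FanData

variable {F : Finset (Finset (Fin r))} {d : ℕ}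

theorem cone_subset_iff (h : FanData G F d) {T T' : Finset (Fin r)} (hT : T ∈ F) (hT' : T' ∈ F) :
    cone G T ⊆ cone G T' ↔ T ⊆ T' := by
  classical
  refine ⟨fun hs i hi => ?_, cone_mono⟩
  obtain ⟨b, hb, hbT, hbx⟩ := hs (gen_mem_cone hi)
  obtain ⟨a, ha, haT, hax⟩ := gen_mem_cone (G := G) (Finset.mem_singleton_self i)
  have hsing : ({i} : Finset (Fin r)) ∈ F := h.down T hT _ (by simpa using hi)
  have hab := h.uniq _ hsing _ hT' a b ha hb haT hbT (by rw [hax, hbx])
  by_contra hi'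
  have hbi := hbT i hi'
  obtain ⟨D, hD⟩ := h.dual _ hsing
  have h1 := dual_comb hD haT (Finset.mem_singleton_self i)
  rw [hax, toReal_dot, hD i (by simp) i (by simp), if_pos rfl, hab, hbi] at h1
  norm_num at h1

theorem cone_injOn (h : FanData G F d) {T T' : Finset (Fin r)} (hT : T ∈ F) (hT' : T' ∈ F)
    (he : cone G T = cone G T') : T = T' :=
  Finset.Subset.antisymm ((h.cone_subset_iff hT hT').mp he.le)
    ((h.cone_subset_iff hT' hT).mp he.ge)

theorem cone_inter (h : FanData G F d) {T T' : Finset (Fin r)} (hT : T ∈ F) (hT' : T' ∈ F) :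
    cone G T ∩ cone G T' = cone G (T ∩ T') := by
  ext x
  constructor
  · rintro ⟨⟨a, ha, haT, hax⟩, ⟨b, hb, hbT, hbx⟩⟩
    have hab := h.uniq _ hT _ hT' a b ha hb haT hbT (by rw [hax, hbx])
    refine ⟨a, ha, fun i hi => ?_, hax⟩
    by_cases hiT : i ∈ T
    · rw [hab]; exact hbT i (fun h' => hi (Finset.mem_inter.mpr ⟨hiT, h'⟩))
    · exact haT i hiT
  · intro hx
    exact ⟨cone_mono Finset.inter_subset_left hx, cone_mono Finset.inter_subset_right hx⟩

open Classical in
theorem sum_eq (h : FanData G F d) {T : Finset (Fin r)} (hT : T ∈ F) (hTd : T.card + 1 = d)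
    (f : Set (Fin n → ℝ) → (Fin n → ℝ)) :
    ∑ σ ∈ (F.image (cone G)).filter (fun σ => dim σ = d ∧ cone G T ⊆ σ), f σ =
      ∑ j ∈ nbr F T, f (cone G (insert j T)) := by
  symm
  refine Finset.sum_bij (fun j _ => cone G (insert j T)) ?_ ?_ ?_ ?_
  · intro j hj
    simp only [nbr, Finset.mem_filter, Finset.mem_univ, true_and] at hj
    obtain ⟨D, hD⟩ := h.dual _ hj.2
    rw [Finset.mem_filter]
    refine ⟨Finset.mem_image_of_mem _ hj.2, ?_, cone_mono (Finset.subset_insert _ _)⟩
    rw [dim_cone hD, Finset.card_insert_of_notMem hj.1, hTd]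
  · intro j hj j' hj' he
    simp only [nbr, Finset.mem_filter, Finset.mem_univ, true_and] at hj hj'
    have := h.cone_injOn hj.2 hj'.2 he
    have h1 : j ∈ insert j' T := this ▸ Finset.mem_insert_self j T
    rcases Finset.mem_insert.mp h1 with h2 | h2
    · exact h2
    · exact absurd h2 hj.1
  · intro σ hσ
    rw [Finset.mem_filter, Finset.mem_image] at hσ
    obtain ⟨⟨T', hT', rfl⟩, hdim, hsub⟩ := hσ
    obtain ⟨D, hD⟩ := h.dual _ hT'
    rw [dim_cone hD] at hdim
    have hss := (h.cone_subset_iff hT hT').mp hsub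
    obtain ⟨j, hj, hjT⟩ := Finset.exists_eq_insert_iff.mpr ⟨hss, by omega⟩
    refine ⟨j, ?_, ?_⟩
    · simp only [nbr, Finset.mem_filter, Finset.mem_univ, true_and]
      exact ⟨hj, hjT ▸ hT'⟩
    · rw [hjT]
  · intro j _; rfl

open Classical in
theorem isBalanced_iff (h : FanData G F d) (w : Set (Fin n → ℝ) → ℝ) :
    IsBalanced (F.image (cone G)) d w ↔
      ∀ T ∈ F, T.card + 1 = d →
        ∑ j ∈ nbr F T, w (cone G (insert j T)) • toReal (G j) ∈ vectorSpan ℝ (cone G T) := by
  constructor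
  · intro hw T hT hTd
    obtain ⟨D, hD⟩ := h.dual _ hT
    obtain ⟨v, hv, hsum⟩ := hw (cone G T) (Finset.mem_image_of_mem _ hT)
      (by rw [dim_cone hD, hTd])
    rw [h.sum_eq hT hTd (fun σ => w σ • toReal (v σ))] at hsum
    have hdiff : ∑ j ∈ nbr F T, w (cone G (insert j T)) •
        (toReal (v (cone G (insert j T))) - toReal (G j)) ∈ vectorSpan ℝ (cone G T) := by
      refine Submodule.sum_mem _ (fun j hj => Submodule.smul_mem _ _ ?_)
      simp only [nbr, Finset.mem_filter, Finset.mem_univ, true_and] at hj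
      obtain ⟨D', hD'⟩ := h.dual _ hj.2
      refine primitiveNormal_sub_mem hj.1 hD' (hv _ (Finset.mem_image_of_mem _ hj.2) ?_ ?_)
      · rw [dim_cone hD', Finset.card_insert_of_notMem hj.1, hTd]
      · exact cone_mono (Finset.subset_insert _ _)
    have := Submodule.sub_mem _ hsum hdiff
    rw [← Finset.sum_sub_distrib] at this
    convert this using 2 with j _
    rw [smul_sub]; abel
  · intro hw τ hτ hτd
    rw [Finset.mem_image] at hτ
    obtain ⟨T, hT, rfl⟩ := hτ
    obtain ⟨D, hD⟩ := h.dual _ hT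
    rw [dim_cone hD] at hτd
    -- the choice of normal vectors
    let v : Set (Fin n → ℝ) → (Fin n → ℤ) := fun σ =>
      if hσ : ∃ j, j ∈ nbr F T ∧ σ = cone G (insert j T) then G hσ.choose else 0
    have hvj : ∀ j ∈ nbr F T, v (cone G (insert j T)) = G j := by
      intro j hj
      have hex : ∃ j', j' ∈ nbr F T ∧ cone G (insert j T) = cone G (insert j' T) := ⟨j, hj, rfl⟩
      have h1 : v (cone G (insert j T)) = G hex.choose := by
        simp only [v]; rw [dif_pos hex]
      have h23 := hex.choose_spec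
      rw [h1]
      generalize hex.choose = j₀ at h23
      obtain ⟨h2, h3⟩ := h23
      congr 1
      simp only [nbr, Finset.mem_filter, Finset.mem_univ, true_and] at hj h2
      have h4 := h.cone_injOn hj.2 h2.2 h3
      have h5 : j₀ ∈ insert j T := h4 ▸ Finset.mem_insert_self _ T
      rcases Finset.mem_insert.mp h5 with h6 | h6
      · exact h6
      · exact absurd h6 h2.1
    refine ⟨v, ?_, ?_⟩
    · intro σ hσ hσd hsub
      rw [Finset.mem_image] at hσ
      obtain ⟨T', hT', rfl⟩ := hσ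
      obtain ⟨D', hD'⟩ := h.dual _ hT'
      rw [dim_cone hD'] at hσd
      have hss := (h.cone_subset_iff hT hT').mp hsub
      obtain ⟨j, hj, rfl⟩ := Finset.exists_eq_insert_iff.mpr ⟨hss, by omega⟩
      have hjn : j ∈ nbr F T := by
        simp only [nbr, Finset.mem_filter, Finset.mem_univ, true_and]; exact ⟨hj, hT'⟩
      rw [hvj j hjn]
      exact isPrimitiveNormal_gen hj hD'
    · rw [h.sum_eq hT hτd (fun σ => w σ • toReal (v σ))]
      have := hw T hT hτd
      convert this using 2 with j hj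
      rw [hvj j hj]

open Classical in
/-- The balanced polyhedral complex given by a unimodular fan with all weights one. -/
noncomputable def toComplex (h : FanData G F d) : BalancedComplex n d where
  cells := F.image (cone G)
  nonempty := by
    intro σ hσ
    obtain ⟨T, _, rfl⟩ := Finset.mem_image.mp hσ
    exact ⟨0, zero_mem_cone T⟩
  polyhedron := by
    intro σ hσ
    obtain ⟨T, hT, rfl⟩ := Finset.mem_image.mp hσ
    obtain ⟨D, hD⟩ := h.dual T hT
    exact isPolyhedron_cone hD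
  rational := by
    intro σ hσ
    obtain ⟨T, _, rfl⟩ := Finset.mem_image.mp hσ
    exact isRational_cone T
  face_mem := by
    intro σ hσ Q hQ
    obtain ⟨T, hT, rfl⟩ := Finset.mem_image.mp hσ
    obtain ⟨T', hT', rfl⟩ := exists_of_isFace hQ
    exact Finset.mem_image_of_mem _ (h.down T hT T' hT')
  inter_face := by
    intro σ hσ τ hτ _
    obtain ⟨T, hT, rfl⟩ := Finset.mem_image.mp hσ
    obtain ⟨T', hT', rfl⟩ := Finset.mem_image.mp hτ
    obtain ⟨D, hD⟩ := h.dual T hT
    rw [h.cone_inter hT hT']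
    exact isFace_cone hD Finset.inter_subset_left
  pure := by
    intro σ hσ
    obtain ⟨T, hT, rfl⟩ := Finset.mem_image.mp hσ
    obtain ⟨T', hT', hsub, hcard⟩ := h.pure T hT
    obtain ⟨D, hD⟩ := h.dual T' hT'
    exact ⟨cone G T', Finset.mem_image_of_mem _ hT', cone_mono hsub, by rw [dim_cone hD, hcard]⟩
  weight := fun _ => 1
  weight_pos := fun _ _ _ => one_pos
  balanced := by
    rw [h.isBalanced_iff]
    intro T hT hTd
    simpa using h.bal T hT hTd

end FanData

end Fan

/-! ### The fan -/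

/-- The rays `u, q, p, m, a, b, s, t` of the fan. -/
def rays : Fin 8 → Fin 4 → ℤ :=
  ![![1, 0, 0, 0], ![-1, -1, 0, 0], ![0, 1, 0, 0], ![0, -1, -1, 0],
    ![0, 0, 1, 0], ![0, 0, -1, 0], ![0, 0, 0, 1], ![0, 1, 1, -1]]

/-- The two-dimensional cones of the fan. -/
def edges : Finset (Finset (Fin 8)) :=
  {{0, 4}, {0, 5}, {1, 4}, {1, 5}, {2, 5}, {2, 6}, {4, 6}, {3, 6}, {2, 7}, {4, 7}, {3, 7}}

/-- All cones of the fan. -/
def fan : Finset (Finset (Fin 8)) := edges.biUnion Finset.powerset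

theorem fan_sub_edge {T : Finset (Fin 8)} (hT : T ∈ fan) : ∃ E ∈ edges, T ⊆ E := by
  obtain ⟨E, hE, h⟩ := Finset.mem_biUnion.mp hT
  exact ⟨E, hE, Finset.mem_powerset.mp h⟩

theorem edge_dual {E : Finset (Fin 8)} (hE : E ∈ edges) : ∃ D, IsDual rays E D := by
  simp only [edges, Finset.mem_insert, Finset.mem_singleton] at hE
  rcases hE with rfl | rfl | rfl | rfl | rfl | rfl | rfl | rfl | rfl | rfl | rfl
  · exact ⟨![![1, 0, 0, 0], 0, 0, 0, ![0, 0, 1, 0], 0, 0, 0], by unfold IsDual; decide⟩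
  · exact ⟨![![1, 0, 0, 0], 0, 0, 0, 0, ![0, 0, -1, 0], 0, 0], by unfold IsDual; decide⟩
  · exact ⟨![0, ![-1, 0, 0, 0], 0, 0, ![0, 0, 1, 0], 0, 0, 0], by unfold IsDual; decide⟩
  · exact ⟨![0, ![-1, 0, 0, 0], 0, 0, 0, ![0, 0, -1, 0], 0, 0], by unfold IsDual; decide⟩
  · exact ⟨![0, 0, ![0, 1, 0, 0], 0, 0, ![0, 0, -1, 0], 0, 0], by unfold IsDual; decide⟩
  · exact ⟨![0, 0, ![0, 1, 0, 0], 0, 0, 0, ![0, 0, 0, 1], 0], by unfold IsDual; decide⟩
  · exact ⟨![0, 0, 0, 0, ![0, 0, 1, 0], 0, ![0, 0, 0, 1], 0], by unfold IsDual; decide⟩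
  · exact ⟨![0, 0, 0, ![0, -1, 0, 0], 0, 0, ![0, 0, 0, 1], 0], by unfold IsDual; decide⟩
  · exact ⟨![0, 0, ![0, 1, 0, 1], 0, 0, 0, 0, ![0, 0, 0, -1]], by unfold IsDual; decide⟩
  · exact ⟨![0, 0, 0, 0, ![0, 0, 1, 1], 0, 0, ![0, 0, 0, -1]], by unfold IsDual; decide⟩
  · exact ⟨![0, 0, 0, ![0, -1, 0, -1], 0, 0, 0, ![0, 0, 0, -1]], by unfold IsDual; decide⟩

theorem edge_opp (T : Finset (Fin 8)) (hE : T ∈ edges) : (0 ∉ T ∨ 1 ∉ T) ∧ (2 ∉ T ∨ 3 ∉ T) ∧
    (4 ∉ T ∨ 5 ∉ T) ∧ (6 ∉ T ∨ 7 ∉ T) := by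
  simp only [edges, Finset.mem_insert, Finset.mem_singleton] at hE
  rcases hE with rfl | rfl | rfl | rfl | rfl | rfl | rfl | rfl | rfl | rfl | rfl <;> decide

theorem fan_opp (T : Finset (Fin 8)) (hT : T ∈ fan) : (0 ∉ T ∨ 1 ∉ T) ∧ (2 ∉ T ∨ 3 ∉ T) ∧
    (4 ∉ T ∨ 5 ∉ T) ∧ (6 ∉ T ∨ 7 ∉ T) := by
  obtain ⟨E, hE, h⟩ := fan_sub_edge hT
  obtain ⟨h1, h2, h3, h4⟩ := edge_opp E hE
  have hh : ∀ i, i ∉ E → i ∉ T := fun i hi hi' => hi (h hi')
  exact ⟨h1.imp (hh _) (hh _), h2.imp (hh _) (hh _), h3.imp (hh _) (hh _), h4.imp (hh _) (hh _)⟩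

theorem comb_rays (a : Fin 8 → ℝ) :
    comb rays a 0 = a 0 - a 1 ∧ comb rays a 1 = - a 1 + a 2 - a 3 + a 7 ∧
    comb rays a 2 = - a 3 + a 4 - a 5 + a 7 ∧ comb rays a 3 = a 6 - a 7 := by
  refine ⟨?_, ?_, ?_, ?_⟩ <;>
  · simp [comb, Fin.sum_univ_eight, toReal, rays]
    try ring

theorem compl_eq {p q p' q' : ℝ} (hp : 0 ≤ p) (hq : 0 ≤ q) (hp' : 0 ≤ p') (hq' : 0 ≤ q')
    (h : p = 0 ∨ q = 0) (h' : p' = 0 ∨ q' = 0) (e : p - q = p' - q') : p = p' ∧ q = q' := by
  rcases h with h | h <;> rcases h' with h' | h' <;> constructor <;> linarith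

theorem fan_uniq : ∀ T ∈ fan, ∀ T' ∈ fan, ∀ a b : Fin 8 → ℝ, (∀ i, 0 ≤ a i) → (∀ i, 0 ≤ b i) →
    (∀ i, i ∉ T → a i = 0) → (∀ i, i ∉ T' → b i = 0) → comb rays a = comb rays b → a = b := by
  intro T hT T' hT' a b ha hb haT hbT hab
  obtain ⟨h01, h23, h45, h67⟩ := fan_opp T hT
  obtain ⟨h01', h23', h45', h67'⟩ := fan_opp T' hT'
  obtain ⟨a0, a1, a2, a3⟩ := comb_rays a
  obtain ⟨b0, b1, b2, b3⟩ := comb_rays b
  rw [hab] at a0 a1 a2 a3
  obtain ⟨e0, e1⟩ := compl_eq (ha 0) (ha 1) (hb 0) (hb 1) (h01.imp (haT 0) (haT 1))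
    (h01'.imp (hbT 0) (hbT 1)) (by linarith)
  obtain ⟨e6, e7⟩ := compl_eq (ha 6) (ha 7) (hb 6) (hb 7) (h67.imp (haT 6) (haT 7))
    (h67'.imp (hbT 6) (hbT 7)) (by linarith)
  obtain ⟨e2, e3⟩ := compl_eq (ha 2) (ha 3) (hb 2) (hb 3) (h23.imp (haT 2) (haT 3))
    (h23'.imp (hbT 2) (hbT 3)) (by linarith)
  obtain ⟨e4, e5⟩ := compl_eq (ha 4) (ha 5) (hb 4) (hb 5) (h45.imp (haT 4) (haT 5))
    (h45'.imp (hbT 4) (hbT 5)) (by linarith)
  ext i
  fin_cases i <;> assumption

theorem fan_down : ∀ T ∈ fan, ∀ T' ⊆ T, T' ∈ fan := by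
  intro T hT T' hT'
  obtain ⟨E, hE, h⟩ := Finset.mem_biUnion.mp hT
  exact Finset.mem_biUnion.mpr
    ⟨E, hE, Finset.mem_powerset.mpr (hT'.trans (Finset.mem_powerset.mp h))⟩

theorem edge_mem_fan {E : Finset (Fin 8)} (hE : E ∈ edges) : E ∈ fan :=
  Finset.mem_biUnion.mpr ⟨E, hE, Finset.mem_powerset.mpr (Finset.Subset.refl E)⟩

theorem edge_card (E : Finset (Fin 8)) (hE : E ∈ edges) : E.card = 2 := by
  simp only [edges, Finset.mem_insert, Finset.mem_singleton] at hE
  rcases hE with rfl | rfl | rfl | rfl | rfl | rfl | rfl | rfl | rfl | rfl | rfl <;> rfl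

theorem fan_card_two (T : Finset (Fin 8)) (hT : T ∈ fan) (hc : T.card = 2) : T ∈ edges := by
  obtain ⟨E, hE, h⟩ := fan_sub_edge hT
  have := Finset.eq_of_subset_of_card_le h (by rw [hc, edge_card E hE])
  rwa [this]

theorem fan_card_one (T : Finset (Fin 8)) (hc : T.card + 1 = 2) :
    T = {0} ∨ T = {1} ∨ T = {2} ∨ T = {3} ∨ T = {4} ∨ T = {5} ∨ T = {6} ∨ T = {7} := by
  obtain ⟨i, rfl⟩ := Finset.card_eq_one.mp (show T.card = 1 by omega)
  fin_cases i <;> simp

theorem nbr_fan_eq (i : Fin 8) : nbr fan {i} =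
    Finset.univ.filter (fun j => j ∉ ({i} : Finset (Fin 8)) ∧ insert j {i} ∈ edges) := by
  unfold nbr
  refine Finset.filter_congr (fun j _ => ?_)
  constructor
  · rintro ⟨h1, h2⟩
    exact ⟨h1, fan_card_two _ h2 (by rw [Finset.card_insert_of_notMem h1]; rfl)⟩
  · rintro ⟨h1, h2⟩
    exact ⟨h1, edge_mem_fan h2⟩

theorem nbr_fan : nbr fan {0} = {4, 5} ∧ nbr fan {1} = {4, 5} ∧ nbr fan {2} = {5, 6, 7} ∧
    nbr fan {3} = {6, 7} ∧ nbr fan {4} = {0, 1, 6, 7} ∧ nbr fan {5} = {0, 1, 2} ∧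
    nbr fan {6} = {2, 3, 4} ∧ nbr fan {7} = {2, 3, 4} := by
  simp only [nbr_fan_eq]
  decide

theorem mem_span_single {i : Fin 8} {x : Fin 4 → ℝ} :
    x ∈ vectorSpan ℝ (cone rays {i}) ↔ ∃ c : ℝ, ∀ k, x k = c * (rays i k : ℝ) := by
  rw [vectorSpan_cone]
  simp only [Finset.coe_singleton, Set.image_singleton, Submodule.mem_span_singleton]
  constructor
  · rintro ⟨c, rfl⟩; exact ⟨c, fun k => rfl⟩
  · rintro ⟨c, hc⟩; exact ⟨c, by ext k; rw [hc k]; rfl⟩

theorem fan_bal : ∀ T ∈ fan, T.card + 1 = 2 →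
    ∑ j ∈ nbr fan T, toReal (rays j) ∈ vectorSpan ℝ (cone rays T) := by
  intro T hT hc
  obtain ⟨n0, n1, n2, n3, n4, n5, n6, n7⟩ := nbr_fan
  rcases fan_card_one T hc with rfl | rfl | rfl | rfl | rfl | rfl | rfl | rfl
  · rw [n0, mem_span_single]; refine ⟨0, fun k => ?_⟩
    fin_cases k <;> simp [toReal, rays]
  · rw [n1, mem_span_single]; refine ⟨0, fun k => ?_⟩
    fin_cases k <;> simp [toReal, rays]
  · rw [n2, mem_span_single]; refine ⟨1, fun k => ?_⟩
    fin_cases k <;> simp [toReal, rays]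
  · rw [n3, mem_span_single]; refine ⟨-1, fun k => ?_⟩
    fin_cases k <;> simp [toReal, rays]
  · rw [n4, mem_span_single]; refine ⟨1, fun k => ?_⟩
    fin_cases k <;> simp [toReal, rays]
  · rw [n5, mem_span_single]; refine ⟨0, fun k => ?_⟩
    fin_cases k <;> simp [toReal, rays]
  · rw [n6, mem_span_single]; refine ⟨0, fun k => ?_⟩
    fin_cases k <;> simp [toReal, rays]
  · rw [n7, mem_span_single]; refine ⟨0, fun k => ?_⟩
    fin_cases k <;> simp [toReal, rays]

theorem fanData : FanData rays fan 2 where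
  down := fan_down
  dual := by
    intro T hT
    obtain ⟨E, hE, h⟩ := fan_sub_edge hT
    obtain ⟨D, hD⟩ := edge_dual hE
    exact ⟨D, hD.mono h⟩
  pure := by
    intro T hT
    obtain ⟨E, hE, h⟩ := fan_sub_edge hT
    exact ⟨E, edge_mem_fan hE, h, edge_card E hE⟩
  uniq := fan_uniq
  bal := fan_bal

/-- The two-dimensional balanced fan `Σ` in `ℝ^4`. -/
noncomputable def fanComplex : BalancedComplex 4 2 := fanData.toComplex

theorem fanComplex_irreducible : fanComplex.Irreducible := by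
  classical
  intro w hw
  have hw' := (fanData.isBalanced_iff w).mp (by convert hw; rfl)
  obtain ⟨n0, n1, n2, n3, n4, n5, n6, n7⟩ := nbr_fan
  have key : ∀ i : Fin 8, ∃ c : ℝ, ∀ k, (∑ j ∈ nbr fan {i},
      w (cone rays (insert j {i})) • toReal (rays j)) k = c * (rays i k : ℝ) := by
    intro i
    have hi : ({i} : Finset (Fin 8)) ∈ fan := by
      fin_cases i
      · exact fan_down _ (edge_mem_fan (show ({0, 4} : Finset (Fin 8)) ∈ edges by simp [edges])) _
          (by decide)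
      · exact fan_down _ (edge_mem_fan (show ({1, 4} : Finset (Fin 8)) ∈ edges by simp [edges])) _
          (by decide)
      · exact fan_down _ (edge_mem_fan (show ({2, 5} : Finset (Fin 8)) ∈ edges by simp [edges])) _
          (by decide)
      · exact fan_down _ (edge_mem_fan (show ({3, 6} : Finset (Fin 8)) ∈ edges by simp [edges])) _
          (by decide)
      · exact fan_down _ (edge_mem_fan (show ({0, 4} : Finset (Fin 8)) ∈ edges by simp [edges])) _
          (by decide)
      · exact fan_down _ (edge_mem_fan (show ({0, 5} : Finset (Fin 8)) ∈ edges by simp [edges])) _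
          (by decide)
      · exact fan_down _ (edge_mem_fan (show ({2, 6} : Finset (Fin 8)) ∈ edges by simp [edges])) _
          (by decide)
      · exact fan_down _ (edge_mem_fan (show ({2, 7} : Finset (Fin 8)) ∈ edges by simp [edges])) _
          (by decide)
    exact mem_span_single.mp (hw' {i} hi (by simp))
  -- the weights on the edges
  obtain ⟨W, hW⟩ : ∃ W : Finset (Fin 8) → ℝ, ∀ T, w (cone rays T) = W T :=
    ⟨fun T => w (cone rays T), fun _ => rfl⟩
  simp only [hW] at key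
  obtain ⟨c0, k0⟩ := key 0
  obtain ⟨c1, k1⟩ := key 1
  obtain ⟨c2, k2⟩ := key 2
  obtain ⟨c3, k3⟩ := key 3
  obtain ⟨c5, k5⟩ := key 5
  obtain ⟨c6, k6⟩ := key 6
  obtain ⟨c7, k7⟩ := key 7
  rw [n0] at k0
  rw [n1] at k1
  rw [n2] at k2
  rw [n3] at k3
  rw [n5] at k5
  rw [n6] at k6
  rw [n7] at k7
  have a04 := k0 2
  have a14 := k1 2
  have a2 := k2 2
  have a31 := k3 1
  have a33 := k3 3
  have a50 := k5 0
  have a51 := k5 1
  have a61 := k6 1
  have a62 := k6 2
  have a71 := k7 1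
  have a72 := k7 2
  have a73 := k7 3
  simp [toReal, rays] at a04 a14 a2 a31 a33 a50 a51 a61 a62 a71 a72 a73
  rw [Finset.pair_comm 4 0, Finset.pair_comm 5 0] at a04
  rw [Finset.pair_comm 4 1, Finset.pair_comm 5 1] at a14
  rw [Finset.pair_comm 5 2, Finset.pair_comm 7 2] at a2
  rw [Finset.pair_comm 6 3, Finset.pair_comm 7 3] at a33
  refine ⟨W {0, 4}, ?_⟩
  intro σ hσ hdim
  obtain ⟨T, hT, rfl⟩ := Finset.mem_image.mp (show σ ∈ fan.image (cone rays) from by convert hσ; rfl)
  obtain ⟨D, hD⟩ := fanData.dual T hT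
  rw [dim_cone hD] at hdim
  have hTE := fan_card_two T hT hdim
  have hwt : ((fanComplex.weight (cone rays T) : ℕ) : ℝ) = 1 := by
    show (((1 : ℕ)) : ℝ) = 1
    norm_num
  rw [hwt, mul_one, hW]
  simp only [edges, Finset.mem_insert, Finset.mem_singleton] at hTE
  rcases hTE with rfl | rfl | rfl | rfl | rfl | rfl | rfl | rfl | rfl | rfl | rfl <;> linarith

/-! ### The plane -/

/-- The affine plane `x₀ + x₃ = 1`, `x₁ + x₃ = 0` in `ℝ^4`. -/
def plane : Set (Fin 4 → ℝ) := {x | x 0 + x 3 = 1 ∧ x 1 + x 3 = 0}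

/-- Two integer vectors spanning the direction of `plane`. -/
def planeVec : Fin 2 → Fin 4 → ℤ := ![![0, 0, 1, 0], ![1, 1, 0, -1]]

theorem plane_dual : IsDual planeVec Finset.univ ![![0, 0, 1, 0], ![1, 0, 0, 0]] := by
  unfold IsDual; decide

theorem base_mem_plane : (![1, 0, 0, 0] : Fin 4 → ℝ) ∈ plane := by
  simp [plane]

theorem comb_planeVec (a : Fin 2 → ℝ) : comb planeVec a = ![a 1, a 1, a 0, - a 1] := by
  ext k
  fin_cases k <;> simp [comb, toReal, planeVec]

theorem vectorSpan_plane : vectorSpan ℝ plane = vectorSpan ℝ (cone planeVec Finset.univ) := by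
  apply le_antisymm
  · rw [vectorSpan_eq_span_vsub_set_right ℝ base_mem_plane, Submodule.span_le]
    rintro _ ⟨x, hx, rfl⟩
    obtain ⟨h1, h2⟩ := hx
    rw [SetLike.mem_coe, mem_vectorSpan_cone]
    refine ⟨![x 2, - x 3], by simp, ?_⟩
    rw [comb_planeVec]
    ext k
    fin_cases k <;> simp <;> linarith
  · intro x hx
    obtain ⟨a, _, rfl⟩ := mem_vectorSpan_cone.mp hx
    have h1 : (![1, 0, 0, 0] : Fin 4 → ℝ) + comb planeVec a ∈ plane := by
      rw [comb_planeVec]
      constructor <;> simp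
    have := vsub_mem_vectorSpan ℝ h1 base_mem_plane
    rwa [vsub_eq_sub, add_sub_cancel_left] at this

theorem dim_plane : dim plane = 2 := by
  have h := dim_cone plane_dual
  unfold dim at h ⊢
  rw [vectorSpan_plane, h]
  simp

theorem isPolyhedron_plane : IsPolyhedron plane := by
  refine ⟨4, ![![1, 0, 0, 1], ![-1, 0, 0, -1], ![0, 1, 0, 1], ![0, -1, 0, -1]], ![1, -1, 0, 0], ?_⟩
  ext x
  simp only [plane, Set.mem_ofPred_eq]
  constructor
  · rintro ⟨h1, h2⟩ i
    fin_cases i <;> simp [dotProduct, Fin.sum_univ_four] <;> linarith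
  · intro h
    have h0 := h 0
    have h1 := h 1
    have h2 := h 2
    have h3 := h 3
    simp [dotProduct, Fin.sum_univ_four] at h0 h1 h2 h3
    constructor <;> linarith

theorem isFace_plane : IsFace plane plane :=
  ⟨⟨_, base_mem_plane⟩, 0, by ext x; simp⟩

theorem face_plane {F : Set (Fin 4 → ℝ)} (hF : IsFace F plane) : F = plane := by
  obtain ⟨⟨x₀, hx₀⟩, c, rfl⟩ := hF
  obtain ⟨hx₀, hmax⟩ := hx₀
  have hconst : ∀ y ∈ plane, c ⬝ᵥ y = c ⬝ᵥ x₀ := by
    intro y hy
    have h1 := hmax y hy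
    have h2 := hmax ((2 : ℝ) • x₀ - y) (by
      obtain ⟨a1, a2⟩ := hx₀
      obtain ⟨b1, b2⟩ := hy
      constructor <;> simp <;> linarith)
    rw [dotProduct_sub, dotProduct_smul, smul_eq_mul] at h2
    linarith
  ext x
  constructor
  · exact fun h => h.1
  · exact fun h => ⟨h, fun y hy => by rw [hconst y hy, hconst x h]⟩

/-- The plane as a balanced complex with a single cell, of weight one. -/
noncomputable def planeComplex : BalancedComplex 4 2 where
  cells := {plane}
  nonempty := by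
    intro σ hσ
    rw [Finset.mem_singleton] at hσ
    subst hσ
    exact ⟨_, base_mem_plane⟩
  polyhedron := by
    intro σ hσ
    rw [Finset.mem_singleton] at hσ
    subst hσ
    exact isPolyhedron_plane
  rational := by
    intro σ hσ
    rw [Finset.mem_singleton] at hσ
    subst hσ
    rw [vectorSpan_plane]
    exact isRational_cone _
  face_mem := by
    intro σ hσ F hF
    rw [Finset.mem_singleton] at hσ
    subst hσ
    rw [Finset.mem_singleton]
    exact face_plane hF
  inter_face := by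
    intro σ hσ τ hτ _
    rw [Finset.mem_singleton] at hσ hτ
    subst hσ
    subst hτ
    rw [Set.inter_self]
    exact isFace_plane
  pure := by
    intro σ hσ
    rw [Finset.mem_singleton] at hσ
    subst hσ
    exact ⟨plane, Finset.mem_singleton_self _, subset_rfl, dim_plane⟩
  weight := fun _ => 1
  weight_pos := fun _ _ _ => one_pos
  balanced := by
    intro τ hτ hd
    rw [Finset.mem_singleton] at hτ
    subst hτ
    rw [dim_plane] at hd
    omega

theorem planeComplex_irreducible : planeComplex.Irreducible := by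
  intro w _
  refine ⟨w plane, ?_⟩
  intro σ hσ _
  have : σ = plane := Finset.mem_singleton.mp hσ
  subst this
  show w plane = w plane * ((1 : ℕ) : ℝ)
  simp

/-! ### The intersection -/

/-- A point common to a cone of the fan and the plane. -/
theorem inter_cases {T : Finset (Fin 8)} (hT : T ∈ fan) {x : Fin 4 → ℝ} (hx : x ∈ cone rays T)
    (hp : x ∈ plane) : (x 3 = 0 ∧ (T ⊆ {0, 4} ∨ T ⊆ {0, 5})) ∨ x 3 = 1 := by
  obtain ⟨a, ha, haT, rfl⟩ := hx
  obtain ⟨e0, e1, e2, e3⟩ := comb_rays a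
  obtain ⟨p1, p2⟩ := hp
  obtain ⟨E, hE, hTE⟩ := fan_sub_edge hT
  have haE : ∀ i, i ∉ E → a i = 0 := fun i hi => haT i (fun h => hi (hTE h))
  have h0 := ha 0
  have h1 := ha 1
  have h2 := ha 2
  have h3 := ha 3
  have h4 := ha 4
  have h5 := ha 5
  have h6 := ha 6
  have h7 := ha 7
  simp only [edges, Finset.mem_insert, Finset.mem_singleton] at hE
  rcases hE with rfl | rfl | rfl | rfl | rfl | rfl | rfl | rfl | rfl | rfl | rfl
  · left
    have g6 := haE 6 (by decide)
    have g7 := haE 7 (by decide)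
    exact ⟨by linarith, Or.inl hTE⟩
  · left
    have g6 := haE 6 (by decide)
    have g7 := haE 7 (by decide)
    exact ⟨by linarith, Or.inr hTE⟩
  · exfalso
    have g0 := haE 0 (by decide)
    have g2 := haE 2 (by decide)
    have g3 := haE 3 (by decide)
    have g5 := haE 5 (by decide)
    have g6 := haE 6 (by decide)
    have g7 := haE 7 (by decide)
    linarith
  · exfalso
    have g0 := haE 0 (by decide)
    have g2 := haE 2 (by decide)
    have g3 := haE 3 (by decide)
    have g4 := haE 4 (by decide)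
    have g6 := haE 6 (by decide)
    have g7 := haE 7 (by decide)
    linarith
  · exfalso
    have g0 := haE 0 (by decide)
    have g1 := haE 1 (by decide)
    have g3 := haE 3 (by decide)
    have g4 := haE 4 (by decide)
    have g6 := haE 6 (by decide)
    have g7 := haE 7 (by decide)
    linarith
  · exfalso
    have g0 := haE 0 (by decide)
    have g1 := haE 1 (by decide)
    have g3 := haE 3 (by decide)
    have g4 := haE 4 (by decide)
    have g5 := haE 5 (by decide)
    have g7 := haE 7 (by decide)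
    linarith
  · exfalso
    have g0 := haE 0 (by decide)
    have g1 := haE 1 (by decide)
    have g2 := haE 2 (by decide)
    have g3 := haE 3 (by decide)
    have g5 := haE 5 (by decide)
    have g7 := haE 7 (by decide)
    linarith
  · right
    have g0 := haE 0 (by decide)
    have g1 := haE 1 (by decide)
    have g2 := haE 2 (by decide)
    have g4 := haE 4 (by decide)
    have g5 := haE 5 (by decide)
    have g7 := haE 7 (by decide)
    linarith
  · exfalso
    have g0 := haE 0 (by decide)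
    have g1 := haE 1 (by decide)
    have g3 := haE 3 (by decide)
    have g4 := haE 4 (by decide)
    have g5 := haE 5 (by decide)
    have g6 := haE 6 (by decide)
    linarith
  · exfalso
    have g0 := haE 0 (by decide)
    have g1 := haE 1 (by decide)
    have g2 := haE 2 (by decide)
    have g3 := haE 3 (by decide)
    have g5 := haE 5 (by decide)
    have g6 := haE 6 (by decide)
    linarith
  · exfalso
    have g0 := haE 0 (by decide)
    have g1 := haE 1 (by decide)
    have g2 := haE 2 (by decide)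
    have g4 := haE 4 (by decide)
    have g5 := haE 5 (by decide)
    have g6 := haE 6 (by decide)
    linarith

theorem plane_sub_hyp {T : Finset (Fin 8)} (hT : T ⊆ {0, 4} ∨ T ⊆ {0, 5}) :
    dim (cone rays T + plane) ≠ 4 := by
  intro hdim
  have htop : vectorSpan ℝ (cone rays T + plane) = ⊤ := by
    apply Submodule.eq_top_of_finrank_eq
    rw [show Module.finrank ℝ (vectorSpan ℝ (cone rays T + plane)) = 4 from hdim]
    simp
  have hle : vectorSpan ℝ (cone rays T + plane) ≤
      LinearMap.ker ((LinearMap.proj 1 : (Fin 4 → ℝ) →ₗ[ℝ] ℝ) + LinearMap.proj 3) := by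
    unfold vectorSpan
    rw [Submodule.span_le]
    rintro _ ⟨_, ⟨x, hx, y, hy, rfl⟩, _, ⟨x', hx', y', hy', rfl⟩, rfl⟩
    have hval : ∀ z ∈ cone rays T, z 1 + z 3 = 0 := by
      rintro _ ⟨a, ha, haT, rfl⟩
      obtain ⟨e0, e1, e2, e3⟩ := comb_rays a
      have hz : ∀ i : Fin 8, i ∉ ({0, 4} : Finset (Fin 8)) → i ∉ ({0, 5} : Finset (Fin 8)) →
          a i = 0 := by
        intro i hi hi'
        apply haT
        rcases hT with h | h
        · exact fun hh => hi (h hh)
        · exact fun hh => hi' (h hh)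
      have g1 := hz 1 (by decide) (by decide)
      have g2 := hz 2 (by decide) (by decide)
      have g3 := hz 3 (by decide) (by decide)
      have g6 := hz 6 (by decide) (by decide)
      have g7 := hz 7 (by decide) (by decide)
      linarith
    have h1 := hval x hx
    have h2 := hval x' hx'
    have h3 := hy.2
    have h4 := hy'.2
    simp
    linarith
  rw [htop] at hle
  have : (![0, 1, 0, 0] : Fin 4 → ℝ) ∈
      LinearMap.ker ((LinearMap.proj 1 : (Fin 4 → ℝ) →ₗ[ℝ] ℝ) + LinearMap.proj 3) :=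
    hle Submodule.mem_top
  simp at this

theorem dim_sm_plane : dim (cone rays {3, 6} + plane) = 4 := by
  have htop : vectorSpan ℝ (cone rays {3, 6} + plane) = ⊤ := by
    rw [eq_top_iff]
    intro x _
    have hz : (0 : Fin 4 → ℝ) ∈ cone rays {3, 6} := zero_mem_cone _
    have h3 : toReal (rays 3) ∈ cone rays {3, 6} := gen_mem_cone (by decide)
    have h6 : toReal (rays 6) ∈ cone rays {3, 6} := gen_mem_cone (by decide)
    have hb := base_mem_plane
    have hb1 : (![1, 0, 1, 0] : Fin 4 → ℝ) ∈ plane := by simp [plane]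
    have hb2 : (![2, 1, 0, -1] : Fin 4 → ℝ) ∈ plane := by
      constructor <;> simp
      norm_num
    have m0 := Set.add_mem_add hz hb
    have m3 := vsub_mem_vectorSpan ℝ (Set.add_mem_add h3 hb) m0
    have m6 := vsub_mem_vectorSpan ℝ (Set.add_mem_add h6 hb) m0
    have m1 := vsub_mem_vectorSpan ℝ (Set.add_mem_add hz hb1) m0
    have m2 := vsub_mem_vectorSpan ℝ (Set.add_mem_add hz hb2) m0
    have r3 : toReal (rays 3) = ![0, -1, -1, 0] := by
      ext k; fin_cases k <;> simp [toReal, rays]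
    have r6 : toReal (rays 6) = ![0, 0, 0, 1] := by
      ext k; fin_cases k <;> simp [toReal, rays]
    have hx : x = (x 0 - x 1) • (toReal (rays 3) + ![1, 0, 0, 0] -ᵥ (0 + ![1, 0, 0, 0])) +
        (x 3 + x 0) • (toReal (rays 6) + ![1, 0, 0, 0] -ᵥ (0 + ![1, 0, 0, 0])) +
        (x 2 + (x 0 - x 1)) • ((0 : Fin 4 → ℝ) + ![1, 0, 1, 0] -ᵥ (0 + ![1, 0, 0, 0])) +
        (x 0) • ((0 : Fin 4 → ℝ) + ![2, 1, 0, -1] -ᵥ (0 + ![1, 0, 0, 0])) := by
      rw [r3, r6]
      ext k
      fin_cases k <;> simp <;> ring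
    rw [hx]
    exact Submodule.add_mem _ (Submodule.add_mem _ (Submodule.add_mem _
      (Submodule.smul_mem _ _ m3) (Submodule.smul_mem _ _ m6)) (Submodule.smul_mem _ _ m1))
      (Submodule.smul_mem _ _ m2)
  unfold dim
  rw [htop]
  simp

/-- There are two irreducible balanced polyhedral complexes of dimension two in `ℝ^4` with
non-empty stable intersection and a connected component of the intersection of their supports that
contains no point of the stable intersection. -/
theorem main : ∃ S L : BalancedComplex 4 2, S.Irreducible ∧ L.Irreducible ∧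
    (S.stableInter L).Nonempty ∧
    ∃ x ∈ S.support ∩ L.support,
      Disjoint (connectedComponentIn (S.support ∩ L.support) x) (S.stableInter L) := by
  classical
  refine ⟨fanComplex, planeComplex, fanComplex_irreducible, planeComplex_irreducible, ?_, ?_⟩
  · -- the point `e₃ + m`
    refine ⟨![0, -1, -1, 1], cone rays {3, 6}, ?_, plane, ?_, dim_sm_plane, ?_, ?_⟩
    · show cone rays {3, 6} ∈ fan.image (cone rays)
      exact Finset.mem_image_of_mem _ (edge_mem_fan (by simp [edges]))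
    · exact Finset.mem_singleton_self _
    · refine ⟨![0, 0, 0, 1, 0, 0, 1, 0], ?_, ?_, ?_⟩
      · intro i; fin_cases i <;> simp
      · intro i hi; fin_cases i <;> simp_all
      · ext k
        fin_cases k <;> simp [comb, Fin.sum_univ_eight, toReal, rays]
    · constructor <;> simp
  · have hmem : (![1, 0, 0, 0] : Fin 4 → ℝ) ∈ fanComplex.support ∩ planeComplex.support := by
      refine ⟨⟨cone rays {0, 4}, ?_, ?_⟩, ⟨plane, ?_, base_mem_plane⟩⟩
      · show cone rays {0, 4} ∈ fan.image (cone rays)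
        exact Finset.mem_image_of_mem _ (edge_mem_fan (by simp [edges]))
      · have h := gen_mem_cone (G := rays) (show (0 : Fin 8) ∈ ({0, 4} : Finset (Fin 8)) by decide)
        convert h using 1
        ext k
        fin_cases k <;> simp [toReal, rays]
      · exact Finset.mem_singleton_self _
    have hcases : ∀ x ∈ fanComplex.support ∩ planeComplex.support, x 3 = 0 ∨ x 3 = 1 := by
      rintro x ⟨⟨σ, hσ, hxσ⟩, ⟨τ, hτ, hxτ⟩⟩
      obtain ⟨T, hT, rfl⟩ := Finset.mem_image.mp
        (show σ ∈ fan.image (cone rays) from by convert hσ; rfl)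
      have hτ' : τ = plane := Finset.mem_singleton.mp hτ
      subst hτ'
      rcases inter_cases hT hxσ hxτ with h | h
      · exact Or.inl h.1
      · exact Or.inr h
    refine ⟨_, hmem, ?_⟩
    rw [Set.disjoint_left]
    rintro x hx ⟨σ, hσ, τ, hτ, hdim, hxσ, hxτ⟩
    -- the component lies in the open half-space `x₃ < 1/2`
    have hsub : connectedComponentIn (fanComplex.support ∩ planeComplex.support)
        (![1, 0, 0, 0] : Fin 4 → ℝ) ⊆ {y | y 3 < 1 / 2} := by
      refine IsPreconnected.subset_left_of_subset_union (v := {y | 1 / 2 < y 3}) ?_ ?_ ?_ ?_ ?_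
        isPreconnected_connectedComponentIn
      · exact isOpen_lt (continuous_apply 3) continuous_const
      · exact isOpen_lt continuous_const (continuous_apply 3)
      · rw [Set.disjoint_left]
        intro y hy hy'
        have h1 : y 3 < 1 / 2 := hy
        have h2 : 1 / 2 < y 3 := hy'
        exact lt_asymm h1 h2
      · intro y hy
        rcases hcases y (connectedComponentIn_subset _ _ hy) with h | h
        · left; show y 3 < 1 / 2; rw [h]; norm_num
        · right; show 1 / 2 < y 3; rw [h]; norm_num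
      · exact ⟨_, mem_connectedComponentIn hmem, by show (0 : ℝ) < 1 / 2; norm_num⟩
    have hx3 : x 3 < 1 / 2 := hsub hx
    obtain ⟨T, hT, rfl⟩ := Finset.mem_image.mp
      (show σ ∈ fan.image (cone rays) from by convert hσ; rfl)
    have hτ' : τ = plane := Finset.mem_singleton.mp hτ
    subst hτ'
    rcases inter_cases hT hxσ hxτ with h | h
    · exact plane_sub_hyp h.2 hdim
    · rw [h] at hx3; norm_num at hx3

end Pool.Agent.Lib.MP_7d0545_co
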